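import Mathlib
import Pool.Agent.H17.Ulam

set_option autoImplicit false

namespace Pool.Agent.Results.MP_7bafff_nt.Counter

noncomputable def ulam : ℕ → ℕ
  | 0 => 1
  | 1 => 2
  | n + 2 => sInf {m | ulam (n + 1) < m ∧
      ∃! p : Fin (n + 2) × Fin (n + 2), p.1 < p.2 ∧ ulam p.1 + ulam p.2 = m}
decreasing_by
  · omega
  · exact p.1.isLt
  · exact p.2.isLt

def lucas : ℕ → ℕ
  | 0 => 2
  | 1 => 1
  | n + 2 => lucas (n + 1) + lucas n

def SumTwo (m : ℕ) : Prop := (∃ i, ulam i = m) ∨ ∃ i j, i < j ∧ ulam i + ulam j = m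

open Pool.Agent.H17.Ulam in
theorem result : ¬ SumTwo (Nat.fib 20) ∧ ¬ SumTwo (lucas 17) := by
  have h := not_sum ulam (by rw [ulam]) (by rw [ulam]) (fun n => by rw [ulam])
  have e1 : Nat.fib 20 = 6765 := by decide +kernel
  have e2 : lucas 17 = 3571 := by decide +kernel
  rw [e1, e2]
  exact ⟨h _ (by norm_num) (by decide +kernel) (by decide +kernel),
    h _ (by norm_num) (by decide +kernel) (by decide +kernel)⟩

end Pool.Agent.Results.MP_7bafff_nt.Counter
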